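import Pool.Agent.W666.GB.Main

/-!
# The Hopf sign for nearly constant negative curvature, with constants valid in all dimensions

Let `R` be the curvature tensor at a point of a Riemannian manifold of dimension `n = 2 m`, and let
`-κ < 0` be the mean of its sectional curvatures. If the Hilbert–Schmidt distance of `R` to the
tensor of constant curvature `-κ`, and that of the Ricci tensors, are at most `10⁻⁶ κ n`, or if all
sectional curvatures lie in `[-(1 + ε) κ, -(1 - ε) κ]` for `ε = (3 / 4) 10⁻⁶ / √n`, then the
Gauss–Bonnet–Chern integrand differs from that of constant curvature `-κ` by at most one fifth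
of its absolute value. So it has the sign `(-1) ^ m`, and so has its integral, which is the Euler
characteristic of the manifold when the manifold is closed.

The proof (see `Pool/Agent/W666/GB/`) expands the integrand in powers of `E = R - (-κ) R₀`; the term
of degree `k` is an average, over `2 k` random sign vectors, of a double alternating form
in `2 k` dimensions. That form is bounded by writing it as an average of determinants of
random matrices, and the moments of the norm of the restriction of `E` to the span of the
sign vectors are bounded with a hypercontractive inequality, one vector at a time.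
-/

namespace Pool.Agent.Results.MP_5a30bb_gt.DimensionFree

open Pool.Agent.W666.GB MeasureTheory

/-- The Gauss–Bonnet–Chern integrand for nearly constant negative curvature. -/
theorem result :
    (∀ (m : ℕ) (V : Type) [NormedAddCommGroup V] [InnerProductSpace ℝ V]
      (e : OrthonormalBasis (Fin m × Bool) ℝ V) (R : V → V → V → V → ℝ), AlgCurv R →
      ∀ κ : ℝ, 0 < κ → Near e R κ →
        |(-1) ^ m * gbc e R - roundGB m κ| ≤ 1 / 5 * roundGB m κ ∧ 0 < (-1) ^ m * gbc e R) ∧
    (∀ (m : ℕ) (M : Type) [MeasurableSpace M] (μ : Measure M) (K : CurvField m M) (κ : M → ℝ),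
      μ ≠ 0 → (∀ p, 0 < κ p ∧ Near (K.e p) (K.R p) (κ p)) → Integrable K.gb μ →
        0 < (-1) ^ m * ∫ p, K.gb p ∂μ) := by
  refine ⟨fun m V _ _ e R hR κ hκ h => ⟨near_close e hR hκ h, near_pos e hR hκ h⟩, ?_⟩
  intro m M _ μ K κ hμ h hint
  have hpos : ∀ p, 0 < (-1) ^ m * K.gb p := fun p =>
    near_pos (K.e p) (K.curv p) (h p).1 (h p).2
  have hint' : Integrable (fun p => (-1) ^ m * K.gb p) μ := hint.const_mul _
  have h2 : 0 < ∫ p, (-1) ^ m * K.gb p ∂μ := by
    rw [integral_pos_iff_support_of_nonneg (fun p => (hpos p).le) hint']
    have hs : Function.support (fun p => (-1) ^ m * K.gb p) = Set.univ := by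
      ext p
      simp only [Function.mem_support, Set.mem_univ, iff_true]
      exact (hpos p).ne'
    rw [hs]
    exact Measure.measure_univ_pos.2 hμ
  rwa [integral_const_mul] at h2

end Pool.Agent.Results.MP_5a30bb_gt.DimensionFree
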