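import Pool.Agent.W714.HE.Main

/-!
# The Hopf sign for six-dimensional Einstein manifolds of nonpositive curvature

At a point where the Ricci tensor is `-5 κ` times the metric (`κ > 0`) and all sectional curvatures lie
in `[-2 κ, 0]`, the Gauss-Bonnet-Chern integrand of a Riemannian six-manifold is at most `-(1 / 50)`
times its absolute value for constant curvature `-κ`. So the Euler characteristic of a closed Einstein
six-manifold with `-2 κ ≤ K ≤ 0`, `Ric = -5 κ g`, is negative.

The proof (see `Pool/Agent/W714/HE/`) uses the formulas and the quadrature on the sphere of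
`Pool/Agent/H933R2/Hopf/` (a development of the starting repository). For Einstein tensors the integrand
is the average over the unit vectors `x` of a combination of `tr J²`, `tr J³` and
`∑ λ_a λ_b K (v_a, v_b)`, where `J` is the Jacobi operator of `x` with eigenvectors `v_a` and eigenvalues
`λ_a`; the Einstein condition fixes the sums `∑_b K (v_a, v_b)`, and a linear programming duality argument
with `K ≤ 2` gives the pointwise sign.
-/

namespace Pool.Agent.Results.MP_5a30bb_gt.EinsteinDimSix

open Hopf6 MeasureTheory Pool.Agent.W714.HE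

/-- Einstein curvature tensors with `-2 κ ≤ K ≤ 0`, `Ric = -5 κ` in dimension six. -/
theorem result :
    (∀ (V : Type) [NormedAddCommGroup V] [InnerProductSpace ℝ V]
      (e : OrthonormalBasis (Fin 6) ℝ V) (R : V → V → V → V → ℝ), AlgCurv R →
      ∀ κ : ℝ, 0 < κ → Einstein e R (-κ) → Hopf6.SecIn R (-(2 * κ)) 0 →
        Hopf6.gbc e R ≤ -(1 / 50 * roundGB κ) ∧ Hopf6.gbc e R < 0) ∧
    (∀ (M : Type) [MeasurableSpace M] (μ : Measure M) (K : CurvField M) (κ : M → ℝ), μ ≠ 0 →
      (∀ p, 0 < κ p ∧ Einstein (K.e p) (K.R p) (-(κ p)) ∧ K.SecIn p (-(2 * κ p)) 0) →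
        Integrable K.gbc μ → ∫ p, K.gbc p ∂μ < 0) := by
  have hpt : ∀ (V : Type) [NormedAddCommGroup V] [InnerProductSpace ℝ V]
      (e : OrthonormalBasis (Fin 6) ℝ V) (R : V → V → V → V → ℝ), AlgCurv R →
      ∀ κ : ℝ, 0 < κ → Einstein e R (-κ) → Hopf6.SecIn R (-(2 * κ)) 0 →
        Hopf6.gbc e R ≤ -(1 / 50 * roundGB κ) ∧ Hopf6.gbc e R < 0 := by
    intro V _ _ e R hR κ hκ hE h
    have h1 := ein_point_neg e hR hκ hE h
    refine ⟨h1, lt_of_le_of_lt h1 ?_⟩
    have := roundGB_pos hκ
    linarith
  refine ⟨hpt, ?_⟩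
  intro M _ μ K κ hμ h hint
  have hneg : ∀ p, K.gbc p < 0 := fun p =>
    (hpt (K.V p) (K.e p) (K.R p) (K.curv p) (κ p) (h p).1 (h p).2.1 (h p).2.2).2
  have hint' : Integrable (fun p => -(K.gbc p)) μ := hint.neg
  have h0' : 0 ≤ fun p => -(K.gbc p) := fun p => by
    have := hneg p
    simp only [Pi.zero_apply]
    linarith
  have h2 : 0 < ∫ p, -(K.gbc p) ∂μ := by
    rw [integral_pos_iff_support_of_nonneg h0' hint']
    have hs : Function.support (fun p => -(K.gbc p)) = Set.univ := by
      ext p
      simp only [Function.mem_support, Set.mem_univ, iff_true]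
      have := hneg p
      intro h0
      linarith
    rw [hs]
    exact pos_iff_ne_zero.2 (by simpa using hμ)
  rw [integral_neg] at h2
  linarith

end Pool.Agent.Results.MP_5a30bb_gt.EinsteinDimSix
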