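import Pool.Agent.W669.HD.FiveFin

/-!
# The sign of the Gauss–Bonnet–Chern integrand under a pointwise condition with a subspace of
dimension at most five
-/

set_option autoImplicit false

namespace Pool.Agent.Results.MP_5a30bb_gt.FourPlane

open Pool.Agent.W666.GB Pool.Agent.W669.HD

/-- (1) For every `m`, every algebraic curvature tensor `R` in dimension `2 m` and every `δ ≥ 0`
such that `R + δ R₀` satisfies `FivePlane` (`R₀ = unitT`: constant curvature one), `(-1)^m` times
the Gauss–Bonnet–Chern integrand of `R` is at least its value for constant curvature `-δ`.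
(2) The integrated forms, for fields of curvature tensors. -/
theorem result :
    (∀ (m : ℕ) (V : Type) [NormedAddCommGroup V] [InnerProductSpace ℝ V]
      (e : OrthonormalBasis (Fin m × Bool) ℝ V) (R : V → V → V → V → ℝ) (δ : ℝ),
      AlgCurv R → 0 ≤ δ → FivePlane (addT R fun x y z w => δ * unitT x y z w) →
        roundGB m δ ≤ (-1) ^ m * gbc e R) ∧
    (∀ (m : ℕ) (M : Type) [MeasurableSpace M] (μ : MeasureTheory.Measure M) (K : CurvField m M),
      (∀ p, FivePlane (K.R p)) → 0 ≤ (-1) ^ m * ∫ p, K.gb p ∂μ) ∧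
    (∀ (m : ℕ) (M : Type) [MeasurableSpace M] (μ : MeasureTheory.Measure M)
      [MeasureTheory.IsFiniteMeasure μ] (K : CurvField m M) (δ : ℝ),
      MeasureTheory.Integrable K.gb μ → 0 ≤ δ →
      (∀ p, FivePlane (addT (K.R p) fun x y z w => δ * unitT x y z w)) →
        roundGB m δ * μ.real Set.univ ≤ (-1) ^ m * ∫ p, K.gb p ∂μ) :=
  ⟨fun _ _ _ _ e _ _ hR hδ h => five_plane e hR hδ h,
    fun _ _ _ μ K h => field_plane μ K h,
    fun _ _ _ μ _ K _ hi hδ h => field_planeδ μ K hi hδ h⟩

end Pool.Agent.Results.MP_5a30bb_gt.FourPlane
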