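import Pool.Agent.W669.HD.FiveFin

/-!
# The sign of the Gauss–Bonnet–Chern integrand for sums of two pieces of dimension at most five and
a nonpositive curvature operator

`PiecesD d k δ R` says: `R` is the sum of `k` curvature tensors, each living on some subspace (the
subspaces are arbitrary, and may intersect), either of dimension at most four and with nonpositive
sectional curvatures, or of dimension at most `d` and strongly nonpositive, and of a curvature
tensor whose curvature operator is at most `-δ`.

(1) In every even dimension `2 m`, if `R` satisfies `PiecesD 5 2 δ`, then `(-1)^m` times the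
Gauss–Bonnet–Chern integrand of `R` is at least its value for constant curvature `-δ`.
(2) The integrated forms, for fields of curvature tensors.
(3) In dimension six, this fails for `PiecesD 4 3 0` (three pieces of dimension four) and for
`PiecesD 6 1 0` (one strongly nonpositive piece of dimension six).
-/

set_option autoImplicit false

namespace Pool.Agent.Results.MP_5a30bb_gt.TwoPieces

open Pool.Agent.W666.GB Pool.Agent.W669.HD

theorem result :
    (∀ (m : ℕ) (V : Type) [NormedAddCommGroup V] [InnerProductSpace ℝ V]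
      (e : OrthonormalBasis (Fin m × Bool) ℝ V) (R : V → V → V → V → ℝ) (δ : ℝ),
      0 ≤ δ → PiecesD 5 2 δ R → roundGB m δ ≤ (-1) ^ m * gbc e R) ∧
    (∀ (m : ℕ) (M : Type) [MeasurableSpace M] (μ : MeasureTheory.Measure M) (K : CurvField m M),
      (∀ p, PiecesD 5 2 0 (K.R p)) → 0 ≤ (-1) ^ m * ∫ p, K.gb p ∂μ) ∧
    (∀ (m : ℕ) (M : Type) [MeasurableSpace M] (μ : MeasureTheory.Measure M)
      [MeasureTheory.IsFiniteMeasure μ] (K : CurvField m M) (δ : ℝ),
      MeasureTheory.Integrable K.gb μ → 0 ≤ δ → (∀ p, PiecesD 5 2 δ (K.R p)) →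
        roundGB m δ * μ.real Set.univ ≤ (-1) ^ m * ∫ p, K.gb p ∂μ) ∧
    (∃ R : E6 → E6 → E6 → E6 → ℝ, AlgCurv R ∧ PiecesD 4 3 0 R ∧ PiecesD 6 1 0 R ∧
      ∀ e : OrthonormalBasis (Fin 3 × Bool) ℝ E6, (-1) ^ 3 * gbc e R < 0) :=
  ⟨fun _ _ _ _ e _ _ hδ h => five_two e hδ h,
    fun _ _ _ μ K h => field_five μ K h,
    fun _ _ _ μ _ K _ hi hδ h => field_fiveδ μ K hi hδ h,
    example_sharp⟩

end Pool.Agent.Results.MP_5a30bb_gt.TwoPieces
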